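import Pool.Agent.Y89.TW.Stm
import Pool.Agent.Y998.TS.MAX
import Pool.Agent.Y259.TS.Mono

/-! # Tensors of degree four killed by the monomials of degree two and six (job TW-INV4) -/

set_option autoImplicit false
set_option linter.unusedSectionVars false

open Matrix Finset

namespace Pool.Agent.Y949.TW

open Pool.Agent.Y89.KS (der sl)
open Pool.Agent.Y89.TS (Clf InD mono)
open Pool.Agent.Y998.TS (Mon)


section core

variable {B : Type*} [CommRing B] {ι : Type*}

lemma two_pow_cancel (h2 : ∀ x : B, 2 * x = 0 → x = 0) (n : ℕ) :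
    ∀ x : B, 2 ^ n * x = 0 → x = 0 := by
  induction n with
  | zero => intro x h; simpa using h
  | succ n ih =>
    intro x h
    apply h2
    apply ih
    rw [← h]
    ring

lemma splitting [DecidableEq ι] (h2 : ∀ x : B, 2 * x = 0 → x = 0) (S : Finset ι) (a : ι → B)
    (G : B) (h : ∀ k ∈ S, (1 + a k) * G = 0) (h0 : (∏ k ∈ S, (1 - a k)) * G = 0) : G = 0 := by
  apply two_pow_cancel h2 S.card
  rw [← h0]
  clear h0
  induction S using Finset.induction_on with
  | empty => simp
  | insert k S hk ih =>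
    rw [card_insert_of_notMem hk, prod_insert hk, mul_assoc,
      ← ih fun l hl => h l (mem_insert_of_mem hl)]
    have h1 := h k (mem_insert_self _ _)
    linear_combination ((2 : B) ^ S.card) * h1

lemma prod_neg_one [DecidableEq ι] (S : Finset ι) (hS : Odd S.card) (a : ι → B)
    (ha : ∀ k ∈ S, a k ^ 2 = 1) :
    (∏ k ∈ S, a k) * ∏ k ∈ S, (1 - a k) = -∏ k ∈ S, (1 - a k) := by
  rw [← prod_mul_distrib]
  have h1 : ∀ k ∈ S, a k * (1 - a k) = (-1) * (1 - a k) := by
    intro k hk
    linear_combination (-1 : B) * ha k hk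
  rw [prod_congr rfl h1, prod_mul_distrib, prod_const, Odd.neg_one_pow hS]
  ring

theorem core [DecidableEq ι] (h2 : ∀ x : B, 2 * x = 0 → x = 0) (S : Finset ι) (hS : Odd S.card)
    (a b : ι → B) (ha : ∀ k ∈ S, a k ^ 2 = 1) (hb : ∀ k ∈ S, b k ^ 2 = 1)
    (h1 : ∀ k ∈ S, (1 + a k) * (1 + b k) = 0)
    (h3 : ∀ k ∈ S, ∀ l ∈ S, ∀ r ∈ S, k ≠ l → l ≠ r → k ≠ r →
      (1 + a k * a l * a r) * (1 + b k * b l * b r) = 0) :
    (1 + ∏ k ∈ S, a k) * (1 + ∏ k ∈ S, b k) = 0 := by
  have hX : ∀ k ∈ S, ∀ l ∈ S, ∀ r ∈ S, (1 + a k) * ((1 + b l) * (1 + a r * b r)) = 0 := by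
    intro k hk l hl r hr
    by_cases hkl : k = l
    · subst hkl
      linear_combination (1 + a r * b r) * h1 k hk
    by_cases hlr : l = r
    · subst hlr
      linear_combination (1 + a k) * h1 l hl + (a l * (1 + a k)) * hb l hl
    by_cases hkr : k = r
    · subst hkr
      linear_combination (1 + b l) * h1 k hk + (b k * (1 + b l)) * ha k hk
    set X := (1 + a k) * ((1 + b l) * (1 + a r * b r)) with hXd
    have e1 : a k * X = X := by
      rw [hXd]
      linear_combination ((1 + b l) * (1 + a r * b r)) * ha k hk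
    have e2 : b k * X = -X := by
      rw [hXd]
      linear_combination ((1 + b l) * (1 + a r * b r)) * h1 k hk
    have e3 : b l * X = X := by
      rw [hXd]
      linear_combination ((1 + a k) * (1 + a r * b r)) * hb l hl
    have e4 : a l * X = -X := by
      rw [hXd]
      linear_combination ((1 + a k) * (1 + a r * b r)) * h1 l hl
    have e5 : a r * b r * X = X := by
      rw [hXd]
      linear_combination ((1 + a k) * (1 + b l)) * (b r ^ 2 * ha r hr + hb r hr)
    have e6 : a r * X = b r * X := by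
      linear_combination (b r) * e5 - (a r * X) * hb r hr
    have e7 : 2 * (a r * X + X) = 0 := by
      linear_combination X * h1 r hr + e6 - e5
    have e8 : a r * X = -X := by
      have := h2 _ e7
      linear_combination this
    have e9 : b r * X = -X := by rw [← e6, e8]
    have e10 : a k * a l * a r * X = X := by
      linear_combination (a k * a l) * e8 - a k * e4 + e1
    have e11 : b k * b l * b r * X = X := by
      linear_combination (b k * b l) * e9 - b k * e3 - e2
    have e12 : 2 ^ 2 * X = 0 := by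
      have h4 := h3 k hk l hl r hr hkl hlr hkr
      linear_combination X * h4 - (1 + b k * b l * b r) * e10 - 2 * e11
    exact two_pow_cancel h2 2 X e12
  set E := (1 + ∏ k ∈ S, a k) * (1 + ∏ k ∈ S, b k) with hE
  have q1 : (∏ k ∈ S, (1 - a k)) * E = 0 := by
    have := prod_neg_one S hS a ha
    rw [hE]
    linear_combination (1 + ∏ k ∈ S, b k) * this
  have q2 : (∏ k ∈ S, (1 - b k)) * E = 0 := by
    have := prod_neg_one S hS b hb
    rw [hE]
    linear_combination (1 + ∏ k ∈ S, a k) * this
  have q3 : (∏ k ∈ S, (1 - a k * b k)) * E = 0 := by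
    have e1 := prod_neg_one S hS (fun k => a k * b k) (by
      intro k hk
      rw [mul_pow, ha k hk, hb k hk, one_mul])
    rw [prod_mul_distrib] at e1
    have e2 : (∏ k ∈ S, b k) ^ 2 = 1 := by
      rw [← prod_pow]
      exact prod_eq_one hb
    rw [hE]
    linear_combination (1 + ∏ k ∈ S, b k) * e1 -
      ((∏ k ∈ S, a k) * ∏ k ∈ S, (1 - a k * b k)) * e2
  have g1 : ∀ l ∈ S, ∀ r ∈ S, (1 + b l) * ((1 + a r * b r) * E) = 0 := by
    intro l hl r hr
    apply splitting h2 S a
    · intro k hk
      linear_combination E * hX k hk l hl r hr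
    · linear_combination ((1 + b l) * (1 + a r * b r)) * q1
  have g2 : ∀ r ∈ S, (1 + a r * b r) * E = 0 := by
    intro r hr
    apply splitting h2 S b
    · intro l hl
      exact g1 l hl r hr
    · linear_combination (1 + a r * b r) * q2
  apply splitting h2 S (fun k => a k * b k)
  · exact g2
  · exact q3

/-- four square roots of `-1` with the sum zero -/
theorem core4 [DecidableEq ι] (h2 : ∀ x : B, 2 * x = 0 → x = 0) (S : Finset ι) (hS : Odd S.card)
    (x : ι → Fin 4 → B) (hx : ∀ k ∈ S, ∀ j, x k j ^ 2 = -1)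
    (h1 : ∀ k ∈ S, ∑ j, x k j = 0)
    (h3 : ∀ k ∈ S, ∀ l ∈ S, ∀ r ∈ S, k ≠ l → l ≠ r → k ≠ r → ∑ j, x k j * x l j * x r j = 0) :
    ∑ j, ∏ k ∈ S, x k j = 0 := by
  set a : ι → B := fun k => -(x k 0 * x k 1) with ha
  set b : ι → B := fun k => -(x k 0 * x k 2) with hb
  have hab : ∀ k ∈ S, a k * b k = -(x k 0 * x k 3) := by
    intro k hk
    have e0 := hx k hk 0
    have e1 := hx k hk 1
    have e2 := hx k hk 2
    have e3 := hx k hk 3
    have e := h1 k hk
    rw [Fin.sum_univ_four] at e
    have e4 : 2 * (a k * b k + x k 0 * x k 3) = 0 := by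
      simp only [ha, hb]
      linear_combination (-(x k 1 + x k 2 - x k 0 - x k 3)) * e + (2 * x k 1 * x k 2 - 1) * e0 +
        e1 + e2 - e3
    have := h2 _ e4
    linear_combination this
  have r1 : ∀ k ∈ S, x k 1 = x k 0 * a k := by
    intro k hk
    simp only [ha]
    linear_combination (x k 1) * hx k hk 0
  have r2 : ∀ k ∈ S, x k 2 = x k 0 * b k := by
    intro k hk
    simp only [hb]
    linear_combination (x k 2) * hx k hk 0
  have r3 : ∀ k ∈ S, x k 3 = x k 0 * (a k * b k) := by
    intro k hk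
    rw [hab k hk]
    linear_combination (x k 3) * hx k hk 0
  have ha2 : ∀ k ∈ S, a k ^ 2 = 1 := by
    intro k hk
    simp only [ha]
    linear_combination (x k 1 ^ 2) * hx k hk 0 - hx k hk 1
  have hb2 : ∀ k ∈ S, b k ^ 2 = 1 := by
    intro k hk
    simp only [hb]
    linear_combination (x k 2 ^ 2) * hx k hk 0 - hx k hk 2
  have h := core h2 S hS a b ha2 hb2 (by
    intro k hk
    have e := h1 k hk
    rw [Fin.sum_univ_four] at e
    have e5 := hab k hk
    have e0 := hx k hk 0
    simp only [ha, hb] at e5 ⊢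
    linear_combination e5 - x k 0 * e + e0) (by
    intro k hk l hl r hr hkl hlr hkr
    have e := h3 k hk l hl r hr hkl hlr hkr
    rw [Fin.sum_univ_four, r1 k hk, r1 l hl, r1 r hr, r2 k hk, r2 l hl, r2 r hr, r3 k hk, r3 l hl,
      r3 r hr] at e
    have k0 := hx k hk 0
    have l0 := hx l hl 0
    have m0 := hx r hr 0
    have u : (x k 0 * x l 0 * x r 0) * (x k 0 * x l 0 * x r 0) = -1 := by
      linear_combination (x l 0 ^ 2 * x r 0 ^ 2) * k0 - (x r 0 ^ 2) * l0 + m0
    linear_combination (-(x k 0 * x l 0 * x r 0)) * e +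
      ((1 + a k * a l * a r) * (1 + b k * b l * b r)) * u)
  rw [Fin.sum_univ_four, prod_congr rfl r1, prod_congr rfl r2, prod_congr rfl r3]
  simp only [prod_mul_distrib]
  linear_combination (∏ k ∈ S, x k 0) * h

end core



section ops

variable {N : Type} [Fintype N] [DecidableEq N]

/-- the action on the variable `j` as a linear map -/
noncomputable def slL (j : Fin 4) (z : Matrix N N ℂ) : Module.End ℂ ((Fin 4 → N) → ℂ) where
  toFun := sl j z
  map_add' f g := by
    funext J
    simp only [sl, Pi.add_apply, mul_add, sum_add_distrib]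
  map_smul' c f := by
    funext J
    simp only [sl, Pi.smul_apply, smul_eq_mul, RingHom.id_apply, mul_sum]
    exact sum_congr rfl fun p _ => by ring

lemma slL_apply (j : Fin 4) (z : Matrix N N ℂ) (f : (Fin 4 → N) → ℂ) (J : Fin 4 → N) :
    slL j z f J = ∑ p, z p (J j) * f (Function.update J j p) := rfl

lemma slL_mul (j : Fin 4) (w z : Matrix N N ℂ) : slL j (w * z) = slL j z * slL j w := by
  apply LinearMap.ext
  intro f
  funext J
  rw [Module.End.mul_apply, slL_apply, slL_apply]
  simp only [slL_apply, Function.update_self, Function.update_idem, Matrix.mul_apply]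
  simp only [sum_mul, mul_sum]
  rw [sum_comm]
  exact sum_congr rfl fun p _ => sum_congr rfl fun q _ => by ring

lemma slL_comm {i j : Fin 4} (hij : i ≠ j) (w z : Matrix N N ℂ) :
    slL i w * slL j z = slL j z * slL i w := by
  apply LinearMap.ext
  intro f
  funext J
  rw [Module.End.mul_apply, Module.End.mul_apply, slL_apply, slL_apply]
  simp only [slL_apply, Function.update_of_ne hij, Function.update_of_ne hij.symm, mul_sum]
  rw [sum_comm]
  refine sum_congr rfl fun p _ => sum_congr rfl fun q _ => ?_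
  rw [Function.update_comm hij]
  ring

lemma slL_neg (j : Fin 4) (z : Matrix N N ℂ) : slL j (-z) = -slL j z := by
  apply LinearMap.ext
  intro f
  funext J
  rw [LinearMap.neg_apply, Pi.neg_apply, slL_apply, slL_apply]
  simp only [Matrix.neg_apply, neg_mul, sum_neg_distrib]

lemma slL_one (j : Fin 4) : slL j (1 : Matrix N N ℂ) = 1 := by
  apply LinearMap.ext
  intro f
  funext J
  rw [slL_apply, Module.End.one_apply]
  simp only [Matrix.one_apply, ite_mul, one_mul, zero_mul]
  rw [sum_ite_eq' univ (J j), if_pos (mem_univ _), Function.update_eq_self]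

lemma der_eq (z : Matrix N N ℂ) (f : (Fin 4 → N) → ℂ) : der z f = ∑ j, slL j z f := by
  funext J
  rw [Finset.sum_apply]
  rfl

/-- the products of the first operators -/
def Pm (H : ℕ → Matrix N N ℂ) : ℕ → Matrix N N ℂ
  | 0 => 1
  | t + 1 => Pm H t * H t

open scoped IsMulCommutative in
theorem transfer (H : ℕ → Matrix N N ℂ) (hc : ∀ k l, H k * H l = H l * H k) (m : ℕ) (hm : Odd m)
    (hsq : ∀ k < m, H k * H k = -1) (f : (Fin 4 → N) → ℂ)
    (h1 : ∀ k < m, der (H k) f = 0)
    (h3 : ∀ k < m, ∀ l < m, ∀ r < m, k ≠ l → l ≠ r → k ≠ r → der (H k * H l * H r) f = 0) :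
    der (Pm H m) f = 0 := by
  classical
  set s : Set (Module.End ℂ ((Fin 4 → N) → ℂ)) := {T | ∃ k j, T = slL j (H k)} with hs
  have hcomm : ∀ a ∈ s, ∀ b ∈ s, a * b = b * a := by
    rintro _ ⟨k, j, rfl⟩ _ ⟨l, i, rfl⟩
    by_cases hij : j = i
    · subst hij
      rw [← slL_mul, ← slL_mul, hc]
    · exact slL_comm hij _ _
  have hmc := Algebra.isMulCommutative_adjoin ℂ hcomm
  let _ : CommRing (Algebra.adjoin ℂ s) := inferInstance
  let I : Ideal (Algebra.adjoin ℂ s) :=
    { carrier := {r | (r : Module.End ℂ ((Fin 4 → N) → ℂ)) f = 0}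
      zero_mem' := by
        change ((0 : Algebra.adjoin ℂ s) : Module.End ℂ ((Fin 4 → N) → ℂ)) f = 0
        rfl
      add_mem' := by
        intro a b ha hb
        change (a : Module.End ℂ ((Fin 4 → N) → ℂ)) f + (b : Module.End ℂ ((Fin 4 → N) → ℂ)) f = 0
        have ha' : (a : Module.End ℂ ((Fin 4 → N) → ℂ)) f = 0 := ha
        have hb' : (b : Module.End ℂ ((Fin 4 → N) → ℂ)) f = 0 := hb
        rw [ha', hb', add_zero]
      smul_mem' := by
        intro c a ha
        change (c : Module.End ℂ ((Fin 4 → N) → ℂ)) ((a : Module.End ℂ ((Fin 4 → N) → ℂ)) f) = 0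
        have ha' : (a : Module.End ℂ ((Fin 4 → N) → ℂ)) f = 0 := ha
        rw [ha', map_zero] }
  have hI : ∀ r : Algebra.adjoin ℂ s, r ∈ I ↔ (r : Module.End ℂ ((Fin 4 → N) → ℂ)) f = 0 :=
    fun r => Iff.rfl
  set x : ℕ → Fin 4 → Algebra.adjoin ℂ s := fun k j =>
    ⟨slL j (H k), Algebra.subset_adjoin ⟨k, j, rfl⟩⟩ with hx
  have hxc : ∀ k j, ((x k j : Algebra.adjoin ℂ s) : Module.End ℂ ((Fin 4 → N) → ℂ)) =
      slL j (H k) := fun k j => rfl
  have key := core4 (B := Algebra.adjoin ℂ s ⧸ I) (ι := ℕ) (by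
    intro b hb
    obtain ⟨r, rfl⟩ := Ideal.Quotient.mk_surjective b
    have e1 : (Ideal.Quotient.mk I) (2 * r) = 0 := by rw [map_mul]; exact hb
    rw [Ideal.Quotient.eq_zero_iff_mem, hI, two_mul] at e1
    rw [Ideal.Quotient.eq_zero_iff_mem, hI]
    have e2 : (r : Module.End ℂ ((Fin 4 → N) → ℂ)) f +
      (r : Module.End ℂ ((Fin 4 → N) → ℂ)) f = 0 := e1
    have e3 : (2 : ℂ) • ((r : Module.End ℂ ((Fin 4 → N) → ℂ)) f) = 0 := by
      rw [two_smul]; exact e2
    exact (smul_eq_zero.1 e3).resolve_left two_ne_zero) (range m) (by rwa [card_range])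
    (fun k j => Ideal.Quotient.mk I (x k j)) (by
      intro k hk j
      rw [mem_range] at hk
      rw [← map_pow, ← map_one (Ideal.Quotient.mk I), ← map_neg, Ideal.Quotient.eq, hI]
      have e : ((x k j ^ 2 - -1 : Algebra.adjoin ℂ s) : Module.End ℂ ((Fin 4 → N) → ℂ)) = 0 := by
        have e1 : ((x k j ^ 2 - -1 : Algebra.adjoin ℂ s) : Module.End ℂ ((Fin 4 → N) → ℂ)) =
          slL j (H k) ^ 2 - -1 := rfl
        rw [e1, sq, ← slL_mul, hsq k hk, slL_neg, slL_one, sub_self]
      rw [e]
      rfl) (by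
      intro k hk
      rw [mem_range] at hk
      rw [← map_sum, Ideal.Quotient.eq_zero_iff_mem, hI, Fin.sum_univ_four]
      have e := h1 k hk
      rw [der_eq, Fin.sum_univ_four] at e
      exact e) (by
      intro k hk l hl r hr hkl hlr hkr
      rw [mem_range] at hk hl hr
      have e := h3 k hk l hl r hr hkl hlr hkr
      simp only [← map_mul]
      rw [← map_sum, Ideal.Quotient.eq_zero_iff_mem, hI, Fin.sum_univ_four]
      rw [der_eq, Fin.sum_univ_four] at e
      have e5 : ∀ j, slL j (H k * H l * H r) = slL j (H k) * slL j (H l) * slL j (H r) := by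
        intro j
        have cc : ∀ k l, slL j (H k) * slL j (H l) = slL j (H l) * slL j (H k) := by
          intro k l
          rw [← slL_mul, ← slL_mul, hc]
        rw [slL_mul, slL_mul, cc l k, ← mul_assoc, cc r k, mul_assoc, cc r l, ← mul_assoc]
      simp only [e5] at e
      exact e)
  simp only [← map_prod] at key
  rw [← map_sum, Ideal.Quotient.eq_zero_iff_mem, hI] at key
  have hP : ∀ t j, ((∏ k ∈ range t, x k j : Algebra.adjoin ℂ s) :
      Module.End ℂ ((Fin 4 → N) → ℂ)) = slL j (Pm H t) := by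
    intro t j
    induction t with
    | zero =>
      rw [range_zero, prod_empty, Pm, slL_one]
      rfl
    | succ t ih =>
      rw [prod_range_succ_comm, Pm, slL_mul, ← ih]
      rfl
  rw [der_eq, Fin.sum_univ_four, ← hP, ← hP, ← hP, ← hP]
  rw [Fin.sum_univ_four] at key
  exact key

lemma der_neg (z : Matrix N N ℂ) (f : (Fin 4 → N) → ℂ) : der (-z) f = -der z f := by
  rw [der_eq, der_eq]
  simp only [slL_neg, LinearMap.neg_apply, sum_neg_distrib]

/-- the pairs of indices -/
def pr (n k : ℕ) : Finset (Fin n) := univ.filter fun i => i.val / 2 = k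

/-- the first indices -/
def Ut (n t : ℕ) : Finset (Fin n) := univ.filter fun i => i.val / 2 < t

lemma pr_eq {n m k : ℕ} (hn : n = 2 * m) (hk : k < m) :
    pr n k = {(⟨2 * k, by omega⟩ : Fin n), (⟨2 * k + 1, by omega⟩ : Fin n)} := by
  ext i
  simp only [pr, mem_filter, mem_univ, true_and, mem_insert, mem_singleton, Fin.ext_iff]
  omega

lemma pr_card {n m k : ℕ} (hn : n = 2 * m) (hk : k < m) : (pr n k).card = 2 := by
  rw [pr_eq hn hk]
  apply card_pair
  intro h
  have := congrArg Fin.val h
  simp only at this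
  omega

lemma pr_even {n m : ℕ} (hn : n = 2 * m) (k : ℕ) : Even (pr n k).card := by
  by_cases hk : k < m
  · rw [pr_card hn hk]
    exact even_two
  · have : pr n k = ∅ := by
      ext i
      have := i.isLt
      simp only [pr, mem_filter, mem_univ, true_and, notMem_empty, iff_false]
      omega
    rw [this]
    exact ⟨0, rfl⟩

lemma pr_disj {n k l : ℕ} (h : k ≠ l) : Disjoint (pr n k) (pr n l) := by
  rw [Finset.disjoint_left]
  intro i hi hi'
  simp only [pr, mem_filter, mem_univ, true_and] at hi hi'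
  exact h (hi.symm.trans hi')

lemma three_card {n m k l r : ℕ} (hn : n = 2 * m) (hk : k < m) (hl : l < m) (hr : r < m)
    (hkl : k ≠ l) (hlr : l ≠ r) (hkr : k ≠ r) :
    (symmDiff (symmDiff (pr n k) (pr n l)) (pr n r)).card = 6 := by
  have e1 : symmDiff (pr n k) (pr n l) = pr n k ∪ pr n l :=
    (pr_disj hkl).symmDiff_eq_sup
  have e2 : Disjoint (pr n k ∪ pr n l) (pr n r) :=
    Finset.disjoint_union_left.2 ⟨pr_disj hkr, pr_disj hlr⟩
  have e3 : symmDiff (pr n k ∪ pr n l) (pr n r) = (pr n k ∪ pr n l) ∪ pr n r :=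
    e2.symmDiff_eq_sup
  rw [e1, e3, card_union_of_disjoint e2, card_union_of_disjoint (pr_disj hkl), pr_card hn hk,
    pr_card hn hl, pr_card hn hr]

end ops

open Pool.Agent.Y89.TW in
theorem t_inv4 : S_inv4 := by
  intro N _ _ n Γ hΓ hn4 hn10 f hf
  obtain ⟨m1, m2, m3, m4⟩ := Pool.Agent.Y259.TS.t_mono N n Γ hΓ
  have hM : Mon Γ := ⟨hΓ.sq, m1, m2, m3, m4⟩
  obtain ⟨m, hn⟩ : ∃ m, n = 2 * m := ⟨n / 2, by omega⟩
  have hodd : Odd m := by rw [Nat.odd_iff]; omega
  set H : ℕ → Matrix N N ℂ := fun k => mono Γ (pr n k) with hH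
  have hc : ∀ k l, H k * H l = H l * H k := by
    intro k l
    by_cases hkl : k = l
    · rw [hkl]
    · apply hM.cm (pr_even hn k)
      rw [Finset.disjoint_iff_inter_eq_empty.1 (pr_disj hkl)]
      exact ⟨0, rfl⟩
  have hsq : ∀ k < m, H k * H k = -1 := by
    intro k hk
    have hij : (⟨2 * k, by omega⟩ : Fin n) ≠ ⟨2 * k + 1, by omega⟩ := by
      intro h
      have := congrArg Fin.val h
      simp only at this
      omega
    have e1 := hM.pair_sq hij
    simp only [hH]
    rw [pr_eq hn hk]
    rcases hM.pair hij with h | h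
    · rw [← h]
      exact e1
    · have h' : mono Γ {(⟨2 * k, by omega⟩ : Fin n), (⟨2 * k + 1, by omega⟩ : Fin n)} =
          -(Γ ⟨2 * k, by omega⟩ * Γ ⟨2 * k + 1, by omega⟩) := by rw [h, neg_neg]
      rw [h', neg_mul_neg]
      exact e1
  have key := transfer H hc m hodd hsq f (by
    intro k hk
    exact hf _ (Or.inl (pr_card hn hk))) (by
    intro k hk l hl r hr hkl hlr hkr
    have e0 := hf _ (Or.inr (three_card hn hk hl hr hkl hlr hkr))
    rcases m3 (pr n k) (pr n l) with e1 | e1 <;>
      rcases m3 (symmDiff (pr n k) (pr n l)) (pr n r) with e2 | e2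
    · simp only [hH]
      rw [e1, e2, e0]
    · simp only [hH]
      rw [e1, e2, der_neg, e0, neg_zero]
    · simp only [hH]
      rw [e1, neg_mul, e2, der_neg, e0, neg_zero]
    · simp only [hH]
      rw [e1, neg_mul, e2, neg_neg, e0])
  have hU : ∀ t, Pm H t = mono Γ (Ut n t) ∨ Pm H t = -mono Γ (Ut n t) := by
    intro t
    induction t with
    | zero =>
      left
      have : Ut n 0 = ∅ := by
        ext i
        simp [Ut]
      rw [this, m1]
      rfl
    | succ t ih =>
      have e : symmDiff (Ut n t) (pr n t) = Ut n (t + 1) := by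
        ext i
        simp only [Ut, pr, mem_symmDiff, mem_filter, mem_univ, true_and]
        omega
      have e1 := m3 (Ut n t) (pr n t)
      rw [e] at e1
      have e2 : Pm H (t + 1) = Pm H t * mono Γ (pr n t) := rfl
      rw [e2]
      rcases ih with h | h <;> rcases e1 with h' | h'
      · left; rw [h, h']
      · right; rw [h, h']
      · right; rw [h, neg_mul, h']
      · left; rw [h, neg_mul, h', neg_neg]
  have hu : Ut n m = univ := by
    ext i
    have := i.isLt
    simp only [Ut, mem_filter, mem_univ, true_and, iff_true]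
    omega
  have h1 := hU m
  rw [hu] at h1
  rcases h1 with h | h
  · rw [h] at key
    exact key
  · rw [h, der_neg] at key
    exact neg_eq_zero.1 key

end Pool.Agent.Y949.TW
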